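import Pool.Agent.ORA.Psi
import Pool.Agent.ORB.GridB

/-!
# ORA: from the generator to the explicit points
-/

set_option autoImplicit false

namespace Pool.Agent.ORA

open MvPolynomial Pool.Agent.ORB

variable {K : Type*} [Field K] [CharZero K] {n : ℕ}

private theorem gridA_totalDegree_aeval_le {σ τ : Type*} [Fintype σ] (g : σ → MvPolynomial τ K)
    (e : ℕ) (hg : ∀ i, (g i).totalDegree ≤ e) (f : MvPolynomial σ K) :
    (aeval g f).totalDegree ≤ f.totalDegree * e := by
  rw [aeval_def, eval₂_eq']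
  refine (totalDegree_finsetSum_le fun d hd => ?_)
  have h1 : ∑ i, d i ≤ f.totalDegree := by
    have := le_totalDegree hd
    rwa [Finsupp.sum_fintype _ _ (fun _ => rfl)] at this
  calc (algebraMap K (MvPolynomial τ K) (f.coeff d) * ∏ i, g i ^ d i).totalDegree
      ≤ (algebraMap K (MvPolynomial τ K) (f.coeff d)).totalDegree + (∏ i, g i ^ d i).totalDegree :=
        totalDegree_mul _ _
    _ = (∏ i, g i ^ d i).totalDegree := by rw [algebraMap_eq, totalDegree_C, zero_add]
    _ ≤ ∑ i, (g i ^ d i).totalDegree := totalDegree_finsetProd _ _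
    _ ≤ ∑ i, d i * e := Finset.sum_le_sum fun i _ =>
        (totalDegree_pow _ _).trans (Nat.mul_le_mul_left _ (hg i))
    _ = (∑ i, d i) * e := by rw [Finset.sum_mul]
    _ ≤ f.totalDegree * e := Nat.mul_le_mul_right _ h1

private theorem gridA_totalDegree_paeval {τ : Type*} (c : τ) (q : Polynomial K) :
    (Polynomial.aeval (X c : MvPolynomial τ K) q).totalDegree ≤ q.natDegree := by
  rw [Polynomial.aeval_eq_sum_range]
  refine totalDegree_finsetSum_le fun i hi => ?_
  refine (totalDegree_smul_le _ _).trans ?_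
  rw [totalDegree_X_pow]
  have := Finset.mem_range.1 hi
  omega

private theorem gridA_cv_natDegree_le (M i : ℕ) : (cv K M i).natDegree ≤ M := by
  unfold cv
  refine Polynomial.natDegree_sum_le_of_forall_le _ _ fun r hr => ?_
  refine (Polynomial.natDegree_C_mul_X_pow_le _ _).trans ?_
  exact (Finset.mem_Icc.1 hr).2

/-- the generator on the variables -/
private noncomputable def gen (K : Type*) [Field K] (n M E : ℕ) (i : Fin n) :
    MvPolynomial (Fin 0 ⊕ (Fin E ⊕ Fin E)) K :=
  rename Sum.inl (0 : MvPolynomial (Fin 0) K) + ∑ l : Fin E, X (Sum.inr (Sum.inl l)) *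
    Polynomial.aeval (X (Sum.inr (Sum.inr l)) : MvPolynomial (Fin 0 ⊕ (Fin E ⊕ Fin E)) K)
      (cvx K n M i)

private theorem gen_totalDegree_le (M E : ℕ) (i : Fin n) : (gen K n M E i).totalDegree ≤ M + 1 := by
  unfold gen cvx
  rw [map_zero, zero_add]
  refine totalDegree_finsetSum_le fun l _ => ?_
  refine (totalDegree_mul _ _).trans ?_
  rw [totalDegree_X]
  have := (gridA_totalDegree_paeval (Sum.inr (Sum.inr l) : Fin 0 ⊕ (Fin E ⊕ Fin E))
    (cv K M (i + 1))).trans (gridA_cv_natDegree_le M _)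
  omega

private theorem gridA_eval_val (M E : ℕ) (a : Fin 0 ⊕ (Fin E ⊕ Fin E) → ℕ) (i : Fin n) :
    val (cvx K n M) (fun _ => eval (fun c => ((a (Sum.inl c) : ℕ) : K)) (0 : MvPolynomial (Fin 0) K))
      (fun l => ((a (Sum.inr (Sum.inl l)) : ℕ) : K)) (fun l => ((a (Sum.inr (Sum.inr l)) : ℕ) : K)) i =
      ((pt n M E (fun l => a (Sum.inr (Sum.inl l))) (fun l => a (Sum.inr (Sum.inr l))) i : ℕ) : K) := by
  unfold val pt cvx
  simp only [map_zero, zero_add, cv_eval]
  push_cast
  rfl

/- Copy of `Pool.Agent.ORB.exists_mem_hittingSet` (`ORB/GridB.lean`, private lemmas there):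
`PhiP (cvx K n M) 0 E (X i) = ∑ l, X (inr (inl l)) * aeval (X (inr (inr l))) (cv K M (i+1))` has total degree
`≤ M + 1`, so the image of `f` is a nonzero polynomial of total degree `≤ D * (M + 1)`: nonzero at a
point of the grid `{0, ..., D (M + 1)}`; evaluate (`eval_PhiP`, `cv_eval`). -/
theorem exists_mem_hitSet (M E D : ℕ) (f : MvPolynomial (Fin n) K) (hD : f.totalDegree ≤ D)
    (hf : PhiP (cvx K n M) (fun _ => (0 : MvPolynomial (Fin 0) K)) E f ≠ 0) :
    ∃ x ∈ hitSet n M E (D * (M + 1)), eval (fun i => (x i : K)) f ≠ 0 := by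
  classical
  obtain ⟨p, hp⟩ : ∃ p, p = PhiP (cvx K n M) (fun _ => (0 : MvPolynomial (Fin 0) K)) E f :=
    ⟨_, rfl⟩
  rw [← hp] at hf
  have hpg : p = aeval (gen K n M E) f := by
    rw [hp]
    rfl
  have hdeg : p.totalDegree ≤ D * (M + 1) := by
    rw [hpg]
    exact (gridA_totalDegree_aeval_le _ (M + 1) (fun i => gen_totalDegree_le M E i) f).trans
      (Nat.mul_le_mul_right _ hD)
  obtain ⟨R, hR⟩ : ∃ R, R = D * (M + 1) := ⟨_, rfl⟩
  rw [← hR] at hdeg ⊢
  let S : Finset K := (Finset.range (R + 1)).image (fun a : ℕ => (a : K))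
  have hS : S.card = R + 1 := by
    rw [Finset.card_image_of_injective _ Nat.cast_injective, Finset.card_range]
  have hex : ∃ x : Fin 0 ⊕ (Fin E ⊕ Fin E) → K, (∀ c, x c ∈ S) ∧ eval x p ≠ 0 := by
    by_contra hcon
    push Not at hcon
    apply hf
    refine MvPolynomial.eq_zero_of_eval_zero_at_prod_finset p (fun _ => S) ?_ ?_
    · intro c
      rw [hS]
      have := degreeOf_le_totalDegree p c
      omega
    · intro x hx
      exact hcon x hx
  obtain ⟨x, hxS, hx⟩ := hex
  have h1 : ∀ c, ∃ a : ℕ, a ∈ Finset.range (R + 1) ∧ (a : K) = x c := by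
    intro c
    obtain ⟨a, ha, hax⟩ := Finset.mem_image.1 (hxS c)
    exact ⟨a, ha, hax⟩
  choose a ha hax using h1
  have hxa : x = fun c => (a c : K) := funext fun c => (hax c).symm
  refine ⟨pt n M E (fun l => a (Sum.inr (Sum.inl l))) (fun l => a (Sum.inr (Sum.inr l))), ?_, ?_⟩
  · unfold hitSet
    rw [Finset.mem_image]
    refine ⟨(fun l => a (Sum.inr (Sum.inl l)), fun l => a (Sum.inr (Sum.inr l))), ?_, rfl⟩
    rw [Finset.mem_product]
    exact ⟨Fintype.mem_piFinset.2 fun c => ha _, Fintype.mem_piFinset.2 fun c => ha _⟩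
  · rw [hp, hxa, eval_PhiP] at hx
    have h2 : (val (cvx K n M)
        (fun _ => eval (fun i => ((a (Sum.inl i) : ℕ) : K)) (0 : MvPolynomial (Fin 0) K))
        (fun l => ((a (Sum.inr (Sum.inl l)) : ℕ) : K))
        (fun l => ((a (Sum.inr (Sum.inr l)) : ℕ) : K))) = fun i : Fin n =>
        ((pt n M E (fun l => a (Sum.inr (Sum.inl l))) (fun l => a (Sum.inr (Sum.inr l))) i : ℕ) : K) :=
      funext fun i => gridA_eval_val M E a i
    rw [h2] at hx
    exact hx

end Pool.Agent.ORA
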