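import Pool.Agent.ORA.Defs

/-!
# ORA: size of the hitting set
-/

set_option autoImplicit false

namespace Pool.Agent.ORA

open Pool.Agent.ORB

/- PLAN. Copy of `Pool.Agent.ORB.GridC` (`card_hittingSet`, `bound_hittingSet`). -/
theorem card_hitSet (n M E R : ℕ) : (hitSet n M E R).card ≤ (R + 1) ^ (2 * E) := by
  unfold hitSet
  refine Finset.card_image_le.trans ?_
  rw [Finset.card_product, Fintype.card_piFinset_const, Finset.card_range, ← pow_add]
  exact le_of_eq (by congr 1; ring)

theorem bound_hitSet (n M E R : ℕ) (x : Fin n → ℕ) (hx : x ∈ hitSet n M E R) (i : Fin n) :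
    x i ≤ E * R * (M * (M.factorial * (n * R + 1) ^ M)) := by
  have hAA : ∀ t, t ≤ R → AA M ((i : ℕ) + 1) t ≤ M * (M.factorial * (n * R + 1) ^ M) := by
    intro t ht
    unfold AA
    calc ∑ r ∈ Finset.Icc 1 M, (M.factorial / r) * (((i : ℕ) + 1) * t) ^ r
        ≤ ∑ _r ∈ Finset.Icc 1 M, M.factorial * (n * R + 1) ^ M := by
          refine Finset.sum_le_sum fun r hr => ?_
          obtain ⟨h1, h2⟩ := Finset.mem_Icc.mp hr
          refine Nat.mul_le_mul (Nat.div_le_self _ _) ?_
          calc (((i : ℕ) + 1) * t) ^ r ≤ (n * R + 1) ^ r := by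
                refine Nat.pow_le_pow_left ?_ r
                exact (Nat.mul_le_mul i.2 ht).trans (Nat.le_succ _)
            _ ≤ (n * R + 1) ^ M := Nat.pow_le_pow_right (Nat.succ_pos _) h2
      _ = M * (M.factorial * (n * R + 1) ^ M) := by
          rw [Finset.sum_const, Nat.card_Icc]
          simp
  unfold hitSet at hx
  obtain ⟨a, ha, rfl⟩ := Finset.mem_image.mp hx
  obtain ⟨h3, h4⟩ := Finset.mem_product.mp ha
  rw [Fintype.mem_piFinset] at h3 h4
  have k3 : ∀ j, a.1 j ≤ R := fun j => Nat.lt_succ_iff.mp (Finset.mem_range.mp (h3 j))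
  have k4 : ∀ j, a.2 j ≤ R := fun j => Nat.lt_succ_iff.mp (Finset.mem_range.mp (h4 j))
  set Q := M * (M.factorial * (n * R + 1) ^ M) with hQ
  unfold pt
  calc ∑ l, a.1 l * AA M ((i : ℕ) + 1) (a.2 l)
      ≤ ∑ _l : Fin E, R * Q :=
        Finset.sum_le_sum fun l _ => Nat.mul_le_mul (k3 l) (hAA _ (k4 l))
    _ = E * R * Q := by
        rw [Finset.sum_const, Finset.card_univ, Fintype.card_fin, smul_eq_mul]
        ring

end Pool.Agent.ORA
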