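import Pool.Agent.ORA.Step
import Pool.Agent.ORG.Init
import Pool.Agent.ORG.Sp
import Pool.Agent.ORG.SpD

/-!
# ORA: the base generator hits frame leaves after a polynomial map
-/

set_option autoImplicit false

namespace Pool.Agent.ORA

open MvPolynomial Pool.Agent.ORB Pool.Agent.ORG

variable {K : Type*} [Field K] [CharZero K] {n : ℕ}

/- PLAN. `ORG.exists_initial` with `a = 1` at `β = φ(0)` (`det 1 ≠ 0`), `pull_step` with `α = 0`. -/
theorem base_one (φ : Fin n → MvPolynomial (Fin n) K) (c : K) (hc : c ≠ 0)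
    (hφ : (Matrix.of fun i j => pderiv i (φ j)).det = C c) (s M : ℕ) (hM : n * s ^ 2 ≤ M)
    {q : MvPolynomial (Fin n) K} (hq : FrameLeaf 1 s q) (hq0 : q ≠ 0) : Psi φ M 1 q ≠ 0 := by
  have h1 : ((1 : Matrix (Fin n) (Fin n) (MvPolynomial (Fin n) K)).map
      (eval (fun j => eval (0 : Fin n → K) (φ j)))).det ≠ 0 := by
    have h2 : (1 : Matrix (Fin n) (Fin n) (MvPolynomial (Fin n) K)).map
        (eval (fun j => eval (0 : Fin n → K) (φ j))) = 1 :=
      Matrix.map_one _ (map_zero _) (map_one _)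
    rw [h2, Matrix.det_one]
    exact one_ne_zero
  obtain ⟨m, V, hfd, hs, hV, hmem, hne, hlow⟩ := exists_initial hq hq0 _ h1
  obtain ⟨z, t, hzt⟩ := pull_step φ c hc hφ 0 q m s M hM V hfd hs hV hmem hne hlow
  rw [Psi_apply]
  refine PhiP_ne_zero _ _ 1 _ (fun _ => 0) (fun _ => z) (fun _ => t) ?_
  have h3 : val (cvx K n M) (fun v => eval (fun _ : Fin 0 => (0 : K))
      ((fun _ => (0 : MvPolynomial (Fin 0) K)) v)) (fun _ : Fin 1 => z) (fun _ => t) =
      fun i => (0 : Fin n → K) i + z * (cvx K n M i).eval t := by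
    funext i
    simp [val]
  rw [h3]
  exact hzt

/- PLAN. `∏ l, q l` is not killed by `Psi φ M 1` (`base_one`, `map_prod`, domain), so there are `z0, t0` with
`q l (φ α) ≠ 0` for all `l`, `α i = z0 * (cvx K n M i).eval t0` (`exists_eval_ne_zero`, `eval_PhiP`, `val`).
`ORG.exists_initial` at `β = φ(α)`, `pull_step` at `α`; conclude with `PhiP_ne_zero` (`Fin 2`,
`z = ![z0, z1]`, `w = ![t0, t1]`). -/
theorem base_hit (φ : Fin n → MvPolynomial (Fin n) K) (c : K) (hc : c ≠ 0)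
    (hφ : (Matrix.of fun i j => pderiv i (φ j)).det = C c) (s s' M : ℕ) (hM : n * s ^ 2 ≤ M)
    (hM2 : n * s' ^ 2 ≤ M) {a : Matrix (Fin n) (Fin n) (MvPolynomial (Fin n) K)} (ha : IsFrame a s')
    {F : MvPolynomial (Fin n) K} (hF : FrameLeaf a s F) (hF0 : F ≠ 0) : Psi φ M 2 F ≠ 0 := by
  obtain ⟨-, r, q, hq0, hq, hdet⟩ := ha
  have h1 : Psi φ M 1 (∏ l, q l) ≠ 0 := by
    rw [map_prod]
    exact Finset.prod_ne_zero_iff.2 fun l _ => base_one φ c hc hφ s' M hM2 (hq l) (hq0 l)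
  obtain ⟨w, hw⟩ := exists_eval_ne_zero h1
  rw [Psi_apply, eval_PhiP] at hw
  obtain ⟨z0, hz0⟩ : ∃ z0, z0 = w (Sum.inr (Sum.inl 0)) := ⟨_, rfl⟩
  obtain ⟨t0, ht0⟩ : ∃ t0, t0 = w (Sum.inr (Sum.inr 0)) := ⟨_, rfl⟩
  obtain ⟨α, hα⟩ : ∃ α : Fin n → K, α = fun i => z0 * (cvx K n M i).eval t0 := ⟨_, rfl⟩
  have h2 : val (cvx K n M) (fun v => eval (fun i => w (Sum.inl i))
      ((fun _ => (0 : MvPolynomial (Fin 0) K)) v)) (fun l : Fin 1 => w (Sum.inr (Sum.inl l)))
      (fun l => w (Sum.inr (Sum.inr l))) = α := by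
    funext i
    rw [hα, hz0, ht0]
    simp [val]
  rw [h2] at hw
  have h3 : ∀ l, eval (fun j => eval α (φ j)) (q l) ≠ 0 := by
    intro l h0
    apply hw
    have h4 : eval α (aeval φ (∏ l, q l)) = eval (fun j => eval α (φ j)) (∏ l, q l) := by
      have h5 : (aeval α : MvPolynomial (Fin n) K →ₐ[K] K).comp (aeval φ) =
          aeval (fun j => eval α (φ j)) := by
        apply MvPolynomial.algHom_ext
        intro j
        rw [AlgHom.comp_apply, aeval_X, aeval_X]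
        rfl
      exact congrArg (fun g : MvPolynomial (Fin n) K →ₐ[K] K => g (∏ l, q l)) h5
    rw [h4, map_prod]
    exact Finset.prod_eq_zero (Finset.mem_univ l) h0
  obtain ⟨m, V, hfd, hs, hV, hmem, hne, hlow⟩ := exists_initial hF hF0 _ (hdet _ h3)
  obtain ⟨z1, t1, hzt⟩ := pull_step φ c hc hφ α F m s M hM V hfd hs hV hmem hne hlow
  rw [Psi_apply]
  refine PhiP_ne_zero _ _ 2 _ (fun _ => 0) ![z0, z1] ![t0, t1] ?_
  have h6 : val (cvx K n M) (fun v => eval (fun _ : Fin 0 => (0 : K))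
      ((fun _ => (0 : MvPolynomial (Fin 0) K)) v)) ![z0, z1] ![t0, t1] =
      fun i => α i + z1 * (cvx K n M i).eval t1 := by
    funext i
    rw [hα]
    simp [val, Fin.sum_univ_two]
  rw [h6]
  exact hzt

/- PLAN. Copy of `Pool.Agent.ORG.leaf_H1`. -/
theorem leaf_H1P (φ : Fin n → MvPolynomial (Fin n) K) (c : K) (hc : c ≠ 0)
    (hφ : (Matrix.of fun i j => pderiv i (φ j)).det = C c) (s M M0 Δ : ℕ)
    (hM : n * (M0.factorial * (n ^ (Δ + 1) * s) ^ M0) ^ 2 ≤ M) (hM2 : n * s ^ 2 ≤ M)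
    {a : Matrix (Fin n) (Fin n) (MvPolynomial (Fin n) K)} (ha : IsFrame a s) :
    H1P φ M 2 (Dc {g | FrameLeaf a s g} Δ) M0 := by
  intro N hN f hf J hdet
  have h1 : ∀ i j, FrameLeaf a (n ^ (Δ + 1) * s) (pderiv (J j) (f i)) := by
    intro i j
    obtain ⟨L, hL, g, hg, hag⟩ := hf i
    have hn : 1 ≤ n := (Nat.succ_le_of_lt (Nat.lt_of_le_of_lt (Nat.zero_le _) (J j).isLt))
    have h2 := FrameLeaf.pd ha.1 hg (J j :: L)
    rw [pd_cons, ← hag, List.length_cons] at h2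
    exact h2.mono (Nat.mul_le_mul_right _ (Nat.pow_le_pow_right hn (by omega)))
  rcases Nat.eq_zero_or_pos (n ^ (Δ + 1) * s) with hs | hs
  · rw [hs] at h1
    rcases Nat.eq_zero_or_pos N with h0 | h0
    · subst h0
      rw [Matrix.det_isEmpty, map_one]
      exact one_ne_zero
    · have h2 := FrameLeaf.det _ h1
      exfalso
      obtain ⟨W, hW1, hW2, hW3, _⟩ := h2
      rw [zero_pow (by omega), mul_zero, Nat.le_zero, Submodule.finrank_eq_zero] at hW2
      rw [hW2, Submodule.mem_bot] at hW3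
      exact hdet hW3
  · refine base_hit φ c hc hφ _ s M ?_ hM2 ha (FrameLeaf.det _ h1) hdet
    refine le_trans (Nat.mul_le_mul_left _ (Nat.pow_le_pow_left ?_ _)) hM
    exact Nat.mul_le_mul (Nat.factorial_le hN) (Nat.pow_le_pow_right hs hN)

end Pool.Agent.ORA
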