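import Pool.Agent.ORB.Defs
import Pool.Agent.Helper5.D4.Jac2

/-!
# ORA: the chain rule and injectivity of the substitution
-/

set_option autoImplicit false

namespace Pool.Agent.ORA

open MvPolynomial Pool.Agent.Helper5.D4

variable {K : Type*} [Field K] {n : ℕ}

/- PLAN. `Pool.Agent.Helper5.D4.chain_rule`, or induction as for `bs_chain` in `ORB/Base.lean`. -/
theorem pderiv_aeval (φ : Fin n → MvPolynomial (Fin n) K) (i : Fin n) (h : MvPolynomial (Fin n) K) :
    pderiv i (aeval φ h) = ∑ j, aeval φ (pderiv j h) * pderiv i (φ j) := by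
  exact chain_rule (pderiv i) φ h

/- PLAN. `algebraicIndependent_of_det` (Helper5.D4.Jac, as in `ORB/FaithA.lean`): the `φ j` are
algebraically independent. -/
theorem aeval_injective [CharZero K] (φ : Fin n → MvPolynomial (Fin n) K) (c : K) (hc : c ≠ 0)
    (hφ : (Matrix.of fun i j => pderiv i (φ j)).det = C c) :
    Function.Injective (aeval φ : MvPolynomial (Fin n) K →ₐ[K] MvPolynomial (Fin n) K) := by
  refine algebraicIndependent_of_det (fun j : Fin n => pderiv j) φ ?_
  have h1 : (Matrix.of fun i j => (pderiv j) (φ i)).det = C c := by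
    rw [← hφ, ← Matrix.det_transpose]
    rfl
  rw [h1]
  exact C_ne_zero.2 hc

/- PLAN. The matrix `(aeval γ (pderiv v (aeval φ (T i))))_{i v}` over the domain `MvPolynomial σ K` is
`A * B`, `A i j = aeval γ (aeval φ (pderiv j (T i)))` (`r × n`), `B j v = aeval γ (pderiv v (φ j))`,
`det B = c ≠ 0` (`pderiv_aeval`).  Over the fraction field: the rows of `A` are independent because
the minor `J` is not zero, `B` is invertible, so the rows of `A * B` are independent and
`exists_minor_of_rows` gives `J'`; determinants commute with `aeval γ` and with the embedding. -/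
theorem exists_minor_pull [CharZero K] {σ : Type*} (φ : Fin n → MvPolynomial (Fin n) K) (c : K)
    (hc : c ≠ 0) (hφ : (Matrix.of fun i j => pderiv i (φ j)).det = C c)
    (γ : Fin n → MvPolynomial σ K) {r : ℕ} (T : Fin r → MvPolynomial (Fin n) K) (J : Fin r → Fin n)
    (hJ : aeval γ (aeval φ (Matrix.of fun i j => pderiv (J j) (T i)).det) ≠ 0) :
    ∃ J' : Fin r → Fin n,
      aeval γ (Matrix.of fun i j => pderiv (J' j) (aeval φ (T i))).det ≠ 0 := by
  classical
  obtain ⟨g, hg⟩ : ∃ g : MvPolynomial σ K →+* FractionRing (MvPolynomial σ K),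
      g = algebraMap _ (FractionRing (MvPolynomial σ K)) := ⟨_, rfl⟩
  have hginj : Function.Injective g := by
    rw [hg]
    exact IsFractionRing.injective _ (FractionRing (MvPolynomial σ K))
  obtain ⟨A, hA⟩ : ∃ A : Matrix (Fin r) (Fin n) (MvPolynomial σ K),
      A = Matrix.of fun i j => aeval γ (aeval φ (pderiv j (T i))) := ⟨_, rfl⟩
  obtain ⟨B, hB⟩ : ∃ B : Matrix (Fin n) (Fin n) (MvPolynomial σ K),
      B = Matrix.of fun j v => aeval γ (pderiv v (φ j)) := ⟨_, rfl⟩
  have hAJ : (A.submatrix id J).det ≠ 0 := by
    intro h0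
    apply hJ
    rw [AlgHom.map_det, AlgHom.map_det, ← h0, hA]
    rfl
  have hBdet : B.det = C c := by
    have h1 : B = ((aeval γ : MvPolynomial (Fin n) K →ₐ[K] MvPolynomial σ K).mapMatrix
        (Matrix.of fun i j => pderiv i (φ j))).transpose := by
      rw [hB]
      rfl
    rw [h1, Matrix.det_transpose, ← AlgHom.map_det, hφ, aeval_C]
    rfl
  have hBu : IsUnit (B.map g) := by
    rw [Matrix.isUnit_iff_isUnit_det, ← RingHom.mapMatrix_apply, ← RingHom.map_det, hBdet]
    rw [isUnit_iff_ne_zero]
    intro h0
    exact hc (C_eq_zero.1 (hginj (h0.trans (map_zero g).symm)))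
  have hrows : LinearIndependent (FractionRing (MvPolynomial σ K)) (A.map g).row := by
    have h1 : LinearIndependent (FractionRing (MvPolynomial σ K))
        ((A.map g).submatrix id J).row := by
      have h2 : (A.map g).submatrix id J = (A.submatrix id J).map g := rfl
      have h4 : ((A.map g).submatrix id J).det ≠ 0 := by
        rw [h2, ← RingHom.mapMatrix_apply, ← RingHom.map_det]
        exact fun h3 => hAJ (hginj (by rw [h3, map_zero]))
      exact Matrix.linearIndependent_rows_of_det_ne_zero h4
    exact LinearIndependent.of_comp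
      (LinearMap.funLeft (FractionRing (MvPolynomial σ K)) (FractionRing (MvPolynomial σ K)) J) h1
  have hrows2 : LinearIndependent (FractionRing (MvPolynomial σ K)) (A.map g * B.map g).row := by
    have h1 := hrows.map' (B.map g).vecMulLinear (by
      rw [LinearMap.ker_eq_bot]
      exact Matrix.vecMul_injective_of_isUnit hBu)
    exact h1
  obtain ⟨J', hJ'⟩ := exists_minor_of_rows (A.map g * B.map g) hrows2
  refine ⟨J', fun h0 => hJ' ?_⟩
  have h1 : (A.map g * B.map g).submatrix id J' =
      ((aeval γ : MvPolynomial (Fin n) K →ₐ[K] MvPolynomial σ K).mapMatrix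
        (Matrix.of fun i j => pderiv (J' j) (aeval φ (T i)))).map g := by
    ext i l
    rw [← Matrix.map_mul, Matrix.submatrix_apply, Matrix.map_apply, Matrix.map_apply,
      AlgHom.mapMatrix_apply, Matrix.map_apply, Matrix.of_apply, pderiv_aeval, map_sum,
      Matrix.mul_apply, hA, hB]
    congr 1
    refine Finset.sum_congr rfl fun v _ => ?_
    rw [map_mul]
    rfl
  rw [h1, ← RingHom.mapMatrix_apply, ← RingHom.map_det, ← AlgHom.map_det, h0, map_zero]

end Pool.Agent.ORA
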