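import Pool.Agent.ORA.Defs
import Pool.Agent.ORB.H1
import Pool.Agent.ORB.CurveB

/-!
# ORA: the generator composed with a polynomial map
-/

set_option autoImplicit false

namespace Pool.Agent.ORA

open MvPolynomial Pool.Agent.ORB

variable {K : Type*} [Field K] {n : ℕ}

/-- the curves `A_i` -/
noncomputable def cvx (K : Type*) [Field K] (n M : ℕ) (i : Fin n) : Polynomial K := cv K M (i + 1)

/-- `h ↦ h(φ(x))` at `x_i = ∑_{l<c} z_l A_i(w_l)` -/
noncomputable def Psi (φ : Fin n → MvPolynomial (Fin n) K) (M c : ℕ) :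
    MvPolynomial (Fin n) K →ₐ[K] MvPolynomial (Fin 0 ⊕ (Fin c ⊕ Fin c)) K :=
  (PhiP (cvx K n M) (fun _ => (0 : MvPolynomial (Fin 0) K)) c).comp (aeval φ)

theorem Psi_apply (φ : Fin n → MvPolynomial (Fin n) K) (M c : ℕ) (h : MvPolynomial (Fin n) K) :
    Psi φ M c h = PhiP (cvx K n M) (fun _ => (0 : MvPolynomial (Fin 0) K)) c (aeval φ h) := rfl

/-- `Psi φ M c` does not kill the Jacobian minors of `𝓒` -/
def H1P (φ : Fin n → MvPolynomial (Fin n) K) (M c : ℕ) (𝓒 : Set (MvPolynomial (Fin n) K)) (N : ℕ) :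
    Prop :=
  ∀ M' ≤ N, ∀ a : Fin M' → MvPolynomial (Fin n) K, (∀ i, a i ∈ 𝓒) → ∀ J : Fin M' → Fin n,
    (Matrix.of fun i j => pderiv (J j) (a i)).det ≠ 0 →
      Psi φ M c (Matrix.of fun i j => pderiv (J j) (a i)).det ≠ 0

theorem linearIndependent_cvx [CharZero K] (M : ℕ) (hM : n * 2 ^ 2 ≤ M) :
    LinearIndependent K (cvx K n M) := by
  have h := linearIndependent_gpA (1 : Matrix (Fin n) (Fin n) K) (by simp) M hM
  have h1 : gpA (1 : Matrix (Fin n) (Fin n) K) M = cvx K n M := by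
    funext j
    unfold gpA cvx
    rw [Finset.sum_eq_single j]
    · simp
    · intro i _ hi
      rw [Matrix.one_apply_ne (Ne.symm hi), Polynomial.C_0, zero_mul]
    · intro h
      exact absurd (Finset.mem_univ j) h
  rwa [h1] at h

end Pool.Agent.ORA
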