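import Pool.Agent.ORA.Pull
import Pool.Agent.ORA.Psi
import Pool.Agent.ORG.Aff

/-!
# ORA: one step of the generator
-/

set_option autoImplicit false

namespace Pool.Agent.ORA

open MvPolynomial Pool.Agent.ORB

variable {K : Type*} [Field K] [CharZero K] {n : ℕ}

private theorem st_scale {K : Type*} [Field K] {n : ℕ} {k : ℕ} {φ : MvPolynomial (Fin n) K}
    (h : φ.IsHomogeneous k) (z : K) (y : Fin n → K) :
    eval (fun j => z * y j) φ = z ^ k * eval y φ := by
  rw [eval_eq', eval_eq', Finset.mul_sum]
  refine Finset.sum_congr rfl fun d hd => ?_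
  have h1 : ∑ i, d i = k := by
    have h2 := h (mem_support_iff.1 hd)
    rw [← h2, Finsupp.weight_apply, Finsupp.sum_fintype]
    · refine Finset.sum_congr rfl fun i _ => ?_
      simp
    · intro i
      simp
  have h2 : ∏ i, (z * y i) ^ d i = z ^ k * ∏ i, y i ^ d i := by
    simp only [mul_pow]
    rw [Finset.prod_mul_distrib, Finset.prod_pow_eq_pow_sum, h1]
  rw [h2]
  ring

private theorem st_eval {K : Type*} [Field K] {n : ℕ} (β y : Fin n → K) (z : K)
    (F : MvPolynomial (Fin n) K) :
    eval (fun j => β j + z * y j) F =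
      ∑ k ∈ Finset.range ((tr β F).totalDegree + 1),
        z ^ k * eval y (homogeneousComponent k (tr β F)) := by
  have h1 : eval (fun j => β j + z * y j) F = eval (fun j => z * y j) (tr β F) := by
    have h : (aeval (fun j => z * y j) : MvPolynomial (Fin n) K →ₐ[K] K).comp (tr β) =
        aeval (fun j => β j + z * y j) := by
      apply MvPolynomial.algHom_ext
      intro j
      rw [AlgHom.comp_apply, tr, aeval_X, aeval_X, map_add, aeval_X, aeval_C]
      rfl
    have h2 := congrArg (fun g : MvPolynomial (Fin n) K →ₐ[K] K => g F) h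
    exact h2.symm
  rw [h1]
  conv_lhs => rw [← sum_homogeneousComponent (tr β F)]
  rw [map_sum]
  exact Finset.sum_congr rfl fun k _ => st_scale (homogeneousComponent_isHomogeneous k _) z y

/- PLAN. Second half of `Pool.Agent.ORB.base_hit` (file `ORB/Base.lean`; copy the private lemmas
`bs_scale`, `bs_eval`): `aeval cv h ≠ 0` for `h = homogeneousComponent m (tr α H)` (`curve_ne_zero`),
so `eval (fun i => (cvx K n M i).eval t) h ≠ 0` for some `t`; `eval (α + z • y) H = ∑ k, z^k * eval y
(homogeneousComponent k (tr α H))` is a polynomial in `z` with a nonzero coefficient. -/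
theorem line_step (α : Fin n → K) (H : MvPolynomial (Fin n) K) (m s M : ℕ) (hM : n * s ^ 2 ≤ M)
    (V : Submodule K (MvPolynomial (Fin n) K)) (hfd : FiniteDimensional K V)
    (hs : Module.finrank K V ≤ s) (hV : ∀ h ∈ V, ∀ j, pderiv j h ∈ V)
    (hmem : homogeneousComponent m (tr α H) ∈ V) (hne : homogeneousComponent m (tr α H) ≠ 0) :
    ∃ z t : K, eval (fun i => α i + z * (cvx K n M i).eval t) H ≠ 0 := by
  have hq : aeval (fun i : Fin n => cv K M (i + 1)) (homogeneousComponent m (tr α H)) ≠ 0 :=
    curve_ne_zero n s M hM _ hne V (fun h hh i => hV h hh i) hfd hs hmem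
  obtain ⟨t, ht⟩ : ∃ t : K, (aeval (fun i : Fin n => cv K M (i + 1))
      (homogeneousComponent m (tr α H))).eval t ≠ 0 := by
    by_contra hcon
    push Not at hcon
    exact hq (Polynomial.funext fun x => by rw [hcon x, Polynomial.eval_zero])
  have hy : eval (fun i => (cvx K n M i).eval t) (homogeneousComponent m (tr α H)) ≠ 0 := by
    have h2 : (Polynomial.aeval t : Polynomial K →ₐ[K] K).comp
        (aeval (fun i : Fin n => cv K M (i + 1)) : MvPolynomial (Fin n) K →ₐ[K] Polynomial K) =
        aeval (fun i => (cvx K n M i).eval t) := by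
      apply MvPolynomial.algHom_ext
      intro j
      rw [AlgHom.comp_apply, aeval_X, aeval_X, Polynomial.coe_aeval_eq_eval]
      rfl
    have h3 := congrArg (fun g : MvPolynomial (Fin n) K →ₐ[K] K =>
      g (homogeneousComponent m (tr α H))) h2
    simp only [AlgHom.comp_apply, Polynomial.coe_aeval_eq_eval] at h3
    intro h4
    apply ht
    rw [h3]
    exact h4
  by_contra hcon
  push Not at hcon
  have hz : ∀ z : K, ∑ k ∈ Finset.range ((tr α H).totalDegree + 1),
      z ^ k * eval (fun i => (cvx K n M i).eval t) (homogeneousComponent k (tr α H)) = 0 := by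
    intro z
    rw [← st_eval]
    exact hcon z t
  have hP : (∑ k ∈ Finset.range ((tr α H).totalDegree + 1),
      Polynomial.C (eval (fun i => (cvx K n M i).eval t) (homogeneousComponent k (tr α H))) *
        Polynomial.X ^ k : Polynomial K) = 0 := by
    apply Polynomial.funext
    intro z
    rw [Polynomial.eval_finsetSum, Polynomial.eval_zero, ← hz z]
    refine Finset.sum_congr rfl fun k _ => ?_
    rw [Polynomial.eval_mul, Polynomial.eval_C, Polynomial.eval_pow, Polynomial.eval_X, mul_comm]
  have hm : m < (tr α H).totalDegree + 1 := by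
    by_contra hcon
    exact hne (homogeneousComponent_eq_zero _ _ (by omega))
  have hc := congrArg (fun p : Polynomial K => p.coeff m) hP
  simp only [Polynomial.finsetSum_coeff, Polynomial.coeff_C_mul_X_pow, Polynomial.coeff_zero] at hc
  rw [Finset.sum_ite_eq, if_pos (Finset.mem_range.2 hm)] at hc
  exact hy hc

/- PLAN. `line_step` for `H = aeval φ G` and the space `V.map (aff A 0)`, `A j i = eval α (pderiv i (φ j))`
(`pull`, `ORG.pderiv_aff`, `ORG.aff_injective`; `A.det ≠ 0`: `A` is the transpose of the image under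
`eval α` of the Jacobian matrix, whose determinant is the constant `c`). -/
theorem pull_step (φ : Fin n → MvPolynomial (Fin n) K) (c : K) (hc : c ≠ 0)
    (hφ : (Matrix.of fun i j => pderiv i (φ j)).det = C c) (α : Fin n → K)
    (G : MvPolynomial (Fin n) K) (m s M : ℕ) (hM : n * s ^ 2 ≤ M)
    (V : Submodule K (MvPolynomial (Fin n) K)) (hfd : FiniteDimensional K V)
    (hs : Module.finrank K V ≤ s) (hV : ∀ h ∈ V, ∀ j, pderiv j h ∈ V)
    (hmem : homogeneousComponent m (tr (fun j => eval α (φ j)) G) ∈ V)
    (hne : homogeneousComponent m (tr (fun j => eval α (φ j)) G) ≠ 0)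
    (hlow : ∀ k < m, homogeneousComponent k (tr (fun j => eval α (φ j)) G) = 0) :
    ∃ z t : K, eval (fun i => α i + z * (cvx K n M i).eval t) (aeval φ G) ≠ 0 := by
  have hpull := pull φ α G hlow
  obtain ⟨A, hAdef⟩ : ∃ A : Matrix (Fin n) (Fin n) K,
      A = Matrix.of fun j i => eval α (pderiv i (φ j)) := ⟨_, rfl⟩
  rw [← hAdef] at hpull
  have hA : A.det ≠ 0 := by
    have h1 : A = ((Matrix.of fun i j => pderiv i (φ j)).map (eval α)).transpose := by
      rw [hAdef]
      ext j i
      rfl
    rw [h1, Matrix.det_transpose]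
    have h2 := congrArg (eval α) hφ
    rw [RingHom.map_det, eval_C] at h2
    have h3 : (Matrix.of fun i j => pderiv i (φ j)).map (eval α) =
        (eval α).mapMatrix (Matrix.of fun i j => pderiv i (φ j)) := rfl
    rw [h3, h2]
    exact hc
  refine line_step α (aeval φ G) m s M hM (V.map (aff A (0 : Fin n → K)).toLinearMap) ?_ ?_ ?_ ?_ ?_
  · infer_instance
  · exact (Submodule.finrank_map_le _ _).trans hs
  · rintro _ ⟨h, hh, rfl⟩ i
    show pderiv i (aff A 0 h) ∈ _
    rw [ORG.pderiv_aff]
    refine Submodule.sum_mem _ fun j _ => ?_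
    rw [← smul_eq_C_mul]
    exact Submodule.smul_mem _ _ ⟨_, hV h hh j, rfl⟩
  · rw [hpull]
    exact ⟨_, hmem, rfl⟩
  · rw [hpull]
    intro h0
    exact hne (ORG.aff_injective A hA 0 (by rw [h0, map_zero]))

end Pool.Agent.ORA
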