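import Pool.Agent.ORA.FaithP
import Pool.Agent.ORB.Occ

/-!
# ORA: Jacobian minors of formulas of bounded depth and bounded occurrence, after a polynomial map
-/

set_option autoImplicit false

namespace Pool.Agent.ORA

open MvPolynomial Pool.Agent.ORB

variable {K : Type*} [Field K] [CharZero K] {n : ℕ}

/- PLAN. Copy of `Pool.Agent.ORB.adj_hit` (`ORB/H1.lean`), with `Psi_faith` in place of `PhiP_PhiP` and
`PhiP_faith`. -/
theorem adj_hitP (φ : Fin n → MvPolynomial (Fin n) K) (c0 : K) (hc0 : c0 ≠ 0)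
    (hφ : (Matrix.of fun i j => pderiv i (φ j)).det = C c0) (M : ℕ)
    (hM : LinearIndependent K (cvx K n M)) {c : ℕ} {𝓒 : Set (MvPolynomial (Fin n) K)} {N : ℕ}
    (h : H1P φ M c 𝓒 N) (PP : Finset (MvPolynomial (Fin n) K)) (hPP : ∀ p ∈ PP, p ∈ 𝓒)
    (hcard : PP.card ≤ N) (P : MvPolynomial (Fin n) K)
    (hP : P ∈ Algebra.adjoin K (PP : Set (MvPolynomial (Fin n) K))) (hP0 : P ≠ 0) :
    Psi φ M (c + N) P ≠ 0 := by
  classical
  have hr : (PP : Set (MvPolynomial (Fin n) K)) =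
      Set.range (fun i => ((PP.equivFin.symm i : PP) : MvPolynomial (Fin n) K)) := by
    ext x
    constructor
    · intro hx
      exact ⟨PP.equivFin ⟨x, hx⟩, by simp⟩
    · rintro ⟨i, rfl⟩
      exact (PP.equivFin.symm i).2
  refine Psi_faith φ c0 hc0 hφ M c hM N
    (fun i => ((PP.equivFin.symm i : PP) : MvPolynomial (Fin n) K)) ?_ ?_ P ?_ hP0
  · intro b _
    have := Finset.card_le_univ b
    rw [Fintype.card_fin] at this
    exact this.trans hcard
  · intro M' hM' e J hdet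
    exact h M' hM' _ (fun i => hPP _ (PP.equivFin.symm (e i)).2) J hdet
  · rw [← hr]
    exact isAlgebraic_algebraMap (⟨P, hP⟩ : Algebra.adjoin K (PP : Set (MvPolynomial (Fin n) K)))

/- PLAN. Copy of `Pool.Agent.ORB.gate_H1`. -/
theorem gate_H1P (φ : Fin n → MvPolynomial (Fin n) K) (c0 : K) (hc0 : c0 ≠ 0)
    (hφ : (Matrix.of fun i j => pderiv i (φ j)).det = C c0) (M : ℕ)
    (hM : LinearIndependent K (cvx K n M)) {c κ : ℕ} {𝓑 : Set (MvPolynomial (Fin n) K)}
    {N m : ℕ} (h : H1P φ M c (Dc 𝓑 (m + 1)) (nRows κ N m)) :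
    H1P φ M (c + nRows κ N m) (Dc (Gate κ 𝓑) m) N := by
  classical
  intro M' hM' f hf J hdet
  choose L hL a ha hfa using hf
  set V : Fin M' → Finset (Fin n) := fun i => Finset.univ.image J ∪ (L i).toFinset with hV
  have hVcard : ∀ i, (V i).card ≤ N + m := fun i => by
    refine (Finset.card_union_le _ _).trans (Nat.add_le_add ?_ ?_)
    · exact Finset.card_image_le.trans (by simpa using hM')
    · exact (List.toFinset_card_le _).trans (hL i)
  have hrow := fun i => gate_rows (ha i) (V i) (L i)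
    (fun v hv => Finset.mem_union_right _ (by simpa using hv))
  choose P hP B hB hBcard hQ using hrow
  have hJV : ∀ i j, J j ∈ V i := fun i j =>
    Finset.mem_union_left _ (Finset.mem_image_of_mem J (Finset.mem_univ j))
  choose Q hQmem hQe using fun i j => hQ i (J j) (hJV i j)
  have hdetE : (Matrix.of fun i j => pderiv (J j) (f i)).det =
      (∏ i, P i) * (Matrix.of fun i j => Q i j).det := by
    rw [← Matrix.det_mul_column]
    congr 1
    ext i j
    simp only [Matrix.of_apply]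
    rw [hfa i, hQe i j]
  set PP : Finset (MvPolynomial (Fin n) K) :=
    Finset.univ.biUnion fun i => DD (V i) (B i) (m + 1) with hPP
  have hcard : PP.card ≤ nRows κ N m := by
    refine Finset.card_biUnion_le.trans ?_
    calc ∑ i, (DD (V i) (B i) (m + 1)).card
        ≤ ∑ _i : Fin M', (N + m + 1) ^ (m + 1) * ((N + m + 1) * κ) := by
          refine Finset.sum_le_sum fun i _ => (card_DD _ _ _).trans ?_
          refine Nat.mul_le_mul (Nat.pow_le_pow_left (Nat.succ_le_succ (hVcard i)) _) ?_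
          exact (hBcard i).trans (Nat.mul_le_mul_right _ (Nat.succ_le_succ (hVcard i)))
      _ = M' * ((N + m + 1) ^ (m + 1) * ((N + m + 1) * κ)) := by simp
      _ ≤ N * ((N + m + 1) ^ (m + 1) * ((N + m + 1) * κ)) := Nat.mul_le_mul_right _ hM'
      _ ≤ nRows κ N m := Nat.le_succ _
  have hmem : ∀ p ∈ PP, p ∈ Dc 𝓑 (m + 1) := by
    intro p hp
    obtain ⟨i, _, hp⟩ := Finset.mem_biUnion.1 hp
    obtain ⟨L', hL', b, hb, rfl⟩ := exists_of_mem_DD hp
    exact ⟨L', hL', b, hB i b hb, rfl⟩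
  have hQadj : ∀ i j, Q i j ∈ Algebra.adjoin K (PP : Set (MvPolynomial (Fin n) K)) := by
    intro i j
    refine Algebra.adjoin_mono ?_ (hQmem i j)
    intro x hx
    have hx' : x ∈ DD (V i) (B i) ((L i).length + 1) := by exact_mod_cast hx
    have h2 : x ∈ PP := Finset.mem_biUnion.2 ⟨i, Finset.mem_univ _,
      DD_mono _ _ (Nat.succ_le_succ (hL i)) hx'⟩
    exact_mod_cast h2
  have hdetQ : (Matrix.of fun i j => Q i j).det ∈
      Algebra.adjoin K (PP : Set (MvPolynomial (Fin n) K)) := by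
    rw [Matrix.det_apply]
    refine Subalgebra.sum_mem _ fun s _ => ?_
    refine Subalgebra.zsmul_mem _ (Subalgebra.prod_mem _ fun i _ => ?_) _
    exact hQadj _ _
  rw [hdetE] at hdet ⊢
  rw [map_mul]
  refine mul_ne_zero ?_ (adj_hitP φ c0 hc0 hφ M hM h PP hmem hcard _ hdetQ (right_ne_zero_of_mul hdet))
  have hb : ∀ p ∈ Submonoid.closure 𝓑, p ≠ 0 → Psi φ M (c + nRows κ N m) p ≠ 0 := by
    intro p hp
    induction hp using Submonoid.closure_induction with
    | mem x hx =>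
      intro hx0
      refine adj_hitP φ c0 hc0 hφ M hM h {x} (fun p hp => ?_) (by simp [nRows]) x
        (Algebra.subset_adjoin (by simp)) hx0
      rw [Finset.mem_singleton] at hp
      subst hp
      exact ⟨[], Nat.zero_le _, p, hx, rfl⟩
    | one => intro _; rw [map_one]; exact one_ne_zero
    | mul x y _ _ ihx ihy =>
      intro hxy
      rw [map_mul]
      exact mul_ne_zero (ihx (left_ne_zero_of_mul hxy)) (ihy (right_ne_zero_of_mul hxy))
  exact hb _ (Submonoid.prod_mem _ fun i _ => hP i) (left_ne_zero_of_mul hdet)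

private theorem occ_H1P_aux (φ : Fin n → MvPolynomial (Fin n) K) (c0 : K) (hc0 : c0 ≠ 0)
    (hφ : (Matrix.of fun i j => pderiv i (φ j)).det = C c0) (M : ℕ)
    (hM : LinearIndependent K (cvx K n M)) {κ k : ℕ} {𝓛 : Set (MvPolynomial (Fin n) K)} :
    ∀ (d i : ℕ), H1P φ M 2 (Dc 𝓛 (i + d)) (mSeq κ k (i + d)) →
      H1P φ M (2 + ∑ j ∈ Finset.range d, mSeq κ k (i + 1 + j)) (Dc (F κ 𝓛 d) i) (mSeq κ k i)
  | 0, i, h => by
    rw [F_zero]
    exact h
  | d + 1, i, h => by
    have e : i + (d + 1) = i + 1 + d := by omega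
    rw [e] at h
    have h1 := occ_H1P_aux φ c0 hc0 hφ M hM d (i + 1) h
    rw [mSeq_succ] at h1
    have h2 := gate_H1P φ c0 hc0 hφ M hM h1
    rw [F_succ]
    have h3 : 2 + ∑ j ∈ Finset.range (d + 1), mSeq κ k (i + 1 + j) =
        2 + ∑ j ∈ Finset.range d, mSeq κ k (i + 1 + 1 + j) + nRows κ (mSeq κ k i) i := by
      rw [Finset.sum_range_succ', ← mSeq_succ, ← add_assoc]
      congr 2
      exact Finset.sum_congr rfl fun j _ => by congr 1; omega
    rw [h3]
    exact h2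

/- PLAN. Copy of `Pool.Agent.ORB.occ_H1_aux`, `occ_H1`, `occ_hit` (`ORB/Occ.lean`), with `2` seeds at the
start. -/
theorem occ_hitP (φ : Fin n → MvPolynomial (Fin n) K) (c0 : K) (hc0 : c0 ≠ 0)
    (hφ : (Matrix.of fun i j => pderiv i (φ j)).det = C c0) (M : ℕ)
    (hM : LinearIndependent K (cvx K n M)) {κ k Δ : ℕ} {𝓛 : Set (MvPolynomial (Fin n) K)}
    (h : H1P φ M 2 (Dc 𝓛 Δ) (mSeq κ k Δ)) {N : ℕ} (T : Fin N → MvPolynomial (Fin n) K)
    (hT : ∀ i, OccFormula κ (fun g => g ∈ 𝓛) Δ (T i))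
    (htr : ∀ b : Finset (Fin N), AlgebraicIndepOn K T (b : Set (Fin N)) → b.card ≤ k)
    (g : MvPolynomial (Fin n) K) (hg : IsAlgebraic (Algebra.adjoin K (Set.range T)) g)
    (hg0 : g ≠ 0) : Psi φ M (2 + seeds κ k Δ) g ≠ 0 := by
  have h1 := occ_H1P_aux (κ := κ) (k := k) φ c0 hc0 hφ M hM Δ 0 (by rw [Nat.zero_add]; exact h)
  have h2 : 2 + seeds κ k Δ = 2 + ∑ j ∈ Finset.range Δ, mSeq κ k (0 + 1 + j) + k := by
    unfold seeds
    rw [Finset.sum_range_succ']
    have h3 : ∑ j ∈ Finset.range Δ, mSeq κ k (0 + 1 + j) =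
        ∑ j ∈ Finset.range Δ, mSeq κ k (j + 1) :=
      Finset.sum_congr rfl fun j _ => by congr 1; omega
    rw [h3, ← add_assoc]
    rfl
  rw [h2]
  refine Psi_faith φ c0 hc0 hφ M _ hM k T htr ?_ g hg hg0
  intro M' hM' e J hdet
  exact h1 M' hM' _ (fun i => ⟨[], Nat.zero_le _, T (e i), hT _, rfl⟩) J hdet

end Pool.Agent.ORA
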