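import Pool.Agent.ORG.Defs

/-!
Project ORA (MP_e2be99_lc): polynomials which become formulas of bounded depth and bounded occurrence
over frame leaves after an unknown polynomial automorphism of affine space.  Definitions used in the
statement; `OccFormula`, `mSeq`, `seeds`, `AA` are those of `Pool.Agent.ORB.Defs`, `FrameLeaf`,
`IsFrame`, `ordF` those of `Pool.Agent.ORG.Defs`.
-/

set_option autoImplicit false

namespace Pool.Agent.ORA

open MvPolynomial Pool.Agent.ORB Pool.Agent.ORG

/-- `g(x) = h(φ(x))`, where `φ` is a polynomial map with constant nonzero Jacobian determinant and `h`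
is algebraic over the field generated by formulas `T_i` of depth `Δ` and occurrence `κ` over the
leaves of one frame, at most `k` of which are algebraically independent. -/
def AutOrbit {K : Type*} [Field K] {n : ℕ} (κ k s Δ : ℕ) (g : MvPolynomial (Fin n) K) : Prop :=
  ∃ (φ : Fin n → MvPolynomial (Fin n) K) (c : K)
    (a : Matrix (Fin n) (Fin n) (MvPolynomial (Fin n) K)) (N : ℕ)
    (T : Fin N → MvPolynomial (Fin n) K) (h : MvPolynomial (Fin n) K),
    c ≠ 0 ∧ (Matrix.of fun i j => pderiv i (φ j)).det = C c ∧
    IsFrame a s ∧ (∀ i, OccFormula κ (FrameLeaf a s) Δ (T i)) ∧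
    (∀ b : Finset (Fin N), AlgebraicIndepOn K T (b : Set (Fin N)) → b.card ≤ k) ∧
    IsAlgebraic (Algebra.adjoin K (Set.range T)) h ∧ g = aeval φ h

/-- The point `x_i = ∑_{l<E} z_l A_i(w_l)`. -/
def pt (n M E : ℕ) (z w : Fin E → ℕ) (i : Fin n) : ℕ := ∑ l, z l * AA M (i + 1) (w l)

/-- All points with parameters in `{0, ..., R}`. -/
def hitSet (n M E R : ℕ) : Finset (Fin n → ℕ) :=
  ((Fintype.piFinset fun _ : Fin E => Finset.range (R + 1)) ×ˢ
    (Fintype.piFinset fun _ : Fin E => Finset.range (R + 1))).image fun a => pt n M E a.1 a.2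

end Pool.Agent.ORA
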