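import Pool.Agent.ORA.Faith2
import Pool.Agent.ORA.Chain
import Pool.Agent.ORA.Psi

/-!
# ORA: faithfulness of the generator composed with a polynomial map
-/

set_option autoImplicit false

namespace Pool.Agent.ORA

open MvPolynomial Pool.Agent.ORB Pool.Agent.Helper5.D4

variable {K : Type*} [Field K] [CharZero K] {n : ℕ}

private theorem faithP_alg {k R : Type*} [Field k] [CommRing R] [IsDomain R] [Algebra k R]
    {N : Type*} (T : N → R) (f : R →ₐ[k] R) (hf : Function.Injective f) (g : R)
    (hg : IsAlgebraic (Algebra.adjoin k (Set.range T)) g) :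
    IsAlgebraic (Algebra.adjoin k (Set.range fun i => f (T i))) (f g) := by
  obtain ⟨p, hp0, hp⟩ := hg
  have hle : ∀ x : Algebra.adjoin k (Set.range T),
      f x ∈ Algebra.adjoin k (Set.range fun i => f (T i)) := by
    intro x
    have h1 : (Algebra.adjoin k (Set.range T)) ≤
        (Algebra.adjoin k (Set.range fun i => f (T i))).comap f := by
      refine Algebra.adjoin_le ?_
      rintro _ ⟨i, rfl⟩
      exact Algebra.subset_adjoin ⟨i, rfl⟩
    exact h1 x.2
  let ι : Algebra.adjoin k (Set.range T) →+* Algebra.adjoin k (Set.range fun i => f (T i)) :=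
    ((f : R →+* R).comp (algebraMap (Algebra.adjoin k (Set.range T)) R)).codRestrict
      (Algebra.adjoin k (Set.range fun i => f (T i))) hle
  have hι : Function.Injective ι := by
    intro x y hxy
    have h1 := congrArg
      (fun z : Algebra.adjoin k (Set.range fun i => f (T i)) => (z : R)) hxy
    exact Subtype.ext (hf h1)
  refine ⟨p.map ι, ?_, ?_⟩
  · intro h0
    exact hp0 (Polynomial.map_injective ι hι (by rw [h0, Polynomial.map_zero]))
  · have h2 := congrArg f hp
    rw [map_zero, Polynomial.aeval_def] at h2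
    have h3 : f (Polynomial.eval₂ (algebraMap (Algebra.adjoin k (Set.range T)) R) g p) =
        Polynomial.eval₂ ((f : R →+* R).comp (algebraMap (Algebra.adjoin k (Set.range T)) R)) (f g) p :=
      Polynomial.hom_eval₂ p _ (f : R →+* R) g
    rw [h3] at h2
    rw [Polynomial.aeval_def, Polynomial.eval₂_map, ← h2]
    rfl

/- PLAN. `PhiP_PhiP` for `f = aeval φ g`; then `PhiP_faith2` for `T' i = aeval φ (T i)`, `g' = aeval φ g`,
`γ v = PhiP (cvx K n M) 0 c (X v)`.  `aeval φ` is injective (`aeval_injective`), so algebraic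
independence of `T'` on `b` gives that of `T` (`AlgebraicIndependent.of_aeval`/`of_map`-type lemmas or
directly: a relation of `T` maps to one of `T'`) and conversely; `g'` is algebraic over `adjoin T'`
(map the relation, `Algebra.adjoin` of the image = image).  `H`: `exists_jacobian_minor` for `T ∘ e`,
the hypothesis here with `aeval_PhiP_X`, `exists_minor_pull`.  `g' ≠ 0` by injectivity. -/
theorem Psi_faith (φ : Fin n → MvPolynomial (Fin n) K) (c0 : K) (hc0 : c0 ≠ 0)
    (hφ : (Matrix.of fun i j => pderiv i (φ j)).det = C c0) (M c : ℕ)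
    (hM : LinearIndependent K (cvx K n M)) (k : ℕ) {N : ℕ} (T : Fin N → MvPolynomial (Fin n) K)
    (htr : ∀ b : Finset (Fin N), AlgebraicIndepOn K T (b : Set (Fin N)) → b.card ≤ k)
    (H : ∀ M' ≤ k, ∀ e : Fin M' → Fin N, ∀ J : Fin M' → Fin n,
      (Matrix.of fun i j => pderiv (J j) (T (e i))).det ≠ 0 →
      Psi φ M c (Matrix.of fun i j => pderiv (J j) (T (e i))).det ≠ 0)
    (g : MvPolynomial (Fin n) K) (hg : IsAlgebraic (Algebra.adjoin K (Set.range T)) g)
    (hg0 : g ≠ 0) : Psi φ M (c + k) g ≠ 0 := by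
  have hinj := aeval_injective φ c0 hc0 hφ
  rw [Psi_apply]
  apply PhiP_PhiP
  refine PhiP_faith2 (cvx K n M) hM _ k (fun i => aeval φ (T i)) ?_ ?_ (aeval φ g)
    (faithP_alg T (aeval φ) hinj g hg) ?_
  · intro b hb
    apply htr b
    exact AlgebraicIndependent.of_comp (aeval φ : MvPolynomial (Fin n) K →ₐ[K] _) hb
  · intro M' hM' e hT
    have hT0 : AlgebraicIndependent K (fun i => T (e i)) :=
      AlgebraicIndependent.of_comp (aeval φ : MvPolynomial (Fin n) K →ₐ[K] _) hT
    obtain ⟨J, hJ⟩ := exists_jacobian_minor _ hT0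
    have h1 := H M' hM' e J hJ
    rw [Psi_apply] at h1
    refine exists_minor_pull φ c0 hc0 hφ _ (fun i => T (e i)) J ?_
    rw [aeval_PhiP_X]
    exact h1
  · intro h
    apply hg0
    apply hinj
    rw [h, map_zero]

end Pool.Agent.ORA
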