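import Pool.Agent.ORB.InitDef

/-!
# ORA: the lowest component of a composition
-/

set_option autoImplicit false

namespace Pool.Agent.ORA

open MvPolynomial Pool.Agent.ORB

variable {K : Type*} [Field K] {n : ℕ}

private theorem low_coeff {p : MvPolynomial (Fin n) K} {a : ℕ}
    (hp : ∀ k < a, homogeneousComponent k p = 0) (d : Fin n →₀ ℕ) (hd : d.degree < a) : coeff d p = 0 := by
  have h1 := congrArg (coeff d) (hp _ hd)
  rw [coeff_homogeneousComponent, if_pos rfl, coeff_zero] at h1
  exact h1

/- PLAN. `coeff_mul` / `coeff_homogeneousComponent`, antidiagonal; or write `p`, `q` as sums of their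
components. -/
theorem hc_mul_lt {p q : MvPolynomial (Fin n) K} {a b : ℕ}
    (hp : ∀ k < a, homogeneousComponent k p = 0) (hq : ∀ k < b, homogeneousComponent k q = 0) :
    ∀ k < a + b, homogeneousComponent k (p * q) = 0 := by
  classical
  intro k hk
  ext d
  rw [coeff_homogeneousComponent, coeff_zero]
  split_ifs with hd
  · rw [coeff_mul]
    refine Finset.sum_eq_zero fun x hx => ?_
    have h1 : x.1.degree + x.2.degree = d.degree := by
      rw [← map_add, Finset.HasAntidiagonal.mem_antidiagonal.1 hx]
    rcases lt_or_ge x.1.degree a with h2 | h2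
    · rw [low_coeff hp _ h2, zero_mul]
    · rw [low_coeff hq x.2 (by omega), mul_zero]
  · rfl

theorem hc_mul_eq {p q : MvPolynomial (Fin n) K} {a b : ℕ}
    (hp : ∀ k < a, homogeneousComponent k p = 0) (hq : ∀ k < b, homogeneousComponent k q = 0) :
    homogeneousComponent (a + b) (p * q) = homogeneousComponent a p * homogeneousComponent b q := by
  classical
  ext d
  rw [coeff_homogeneousComponent, coeff_mul, coeff_mul]
  split_ifs with hd
  · refine Finset.sum_congr rfl fun x hx => ?_
    have h1 : x.1.degree + x.2.degree = d.degree := by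
      rw [← map_add, Finset.HasAntidiagonal.mem_antidiagonal.1 hx]
    rw [coeff_homogeneousComponent, coeff_homogeneousComponent]
    rcases lt_trichotomy x.1.degree a with h2 | h2 | h2
    · rw [low_coeff hp _ h2, if_neg (by omega), zero_mul, zero_mul]
    · rw [if_pos h2, if_pos (by omega)]
    · rw [low_coeff hq x.2 (by omega), if_neg (by omega), zero_mul, mul_zero]
  · symm
    refine Finset.sum_eq_zero fun x hx => ?_
    have h1 : x.1.degree + x.2.degree = d.degree := by
      rw [← map_add, Finset.HasAntidiagonal.mem_antidiagonal.1 hx]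
    rw [coeff_homogeneousComponent, coeff_homogeneousComponent]
    by_cases h2 : x.1.degree = a
    · rw [if_neg (show ¬ x.2.degree = b by omega), mul_zero]
    · rw [if_neg h2, zero_mul]

/-- lowest component -/
private def LowIs (m : ℕ) (x y : MvPolynomial (Fin n) K) : Prop :=
  (∀ k < m, homogeneousComponent k x = 0) ∧ homogeneousComponent m x = y

private theorem LowIs.mul {a b : ℕ} {x y x' y' : MvPolynomial (Fin n) K} (h : LowIs a x y)
    (h' : LowIs b x' y') : LowIs (a + b) (x * x') (y * y') :=
  ⟨hc_mul_lt h.1 h'.1, by rw [hc_mul_eq h.1 h'.1, h.2, h'.2]⟩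

private theorem LowIs.add {a : ℕ} {x y x' y' : MvPolynomial (Fin n) K} (h : LowIs a x y)
    (h' : LowIs a x' y') : LowIs a (x + x') (y + y') :=
  ⟨fun k hk => by rw [map_add, h.1 k hk, h'.1 k hk, add_zero], by rw [map_add, h.2, h'.2]⟩

private theorem LowIs.C (r : K) : LowIs (n := n) 0 (MvPolynomial.C r) (MvPolynomial.C r) :=
  ⟨fun k hk => absurd hk (Nat.not_lt_zero k), by rw [homogeneousComponent_zero, coeff_C, if_pos rfl]⟩

private theorem LowIs.pow {a : ℕ} {x y : MvPolynomial (Fin n) K} (h : LowIs a x y) :
    ∀ e : ℕ, LowIs (e * a) (x ^ e) (y ^ e)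
  | 0 => by
    have h1 := LowIs.C (n := n) (1 : K)
    rw [C_1] at h1
    rw [zero_mul, pow_zero, pow_zero]
    exact h1
  | e + 1 => by
    have h1 := (LowIs.pow h e).mul h
    rw [pow_succ, pow_succ, add_mul, one_mul]
    exact h1

private theorem LowIs.prod {ι : Type*} (S : Finset ι) (a : ι → ℕ) (x y : ι → MvPolynomial (Fin n) K)
    (h : ∀ i ∈ S, LowIs (a i) (x i) (y i)) : LowIs (∑ i ∈ S, a i) (∏ i ∈ S, x i) (∏ i ∈ S, y i) := by
  classical
  induction S using Finset.induction_on with
  | empty =>
    have h1 := LowIs.C (n := n) (1 : K)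
    rw [C_1] at h1
    simpa using h1
  | insert i S hi ih =>
    rw [Finset.sum_insert hi, Finset.prod_insert hi, Finset.prod_insert hi]
    exact (h i (Finset.mem_insert_self _ _)).mul (ih fun j hj => h j (Finset.mem_insert_of_mem hj))

private theorem LowIs.sum {ι : Type*} (S : Finset ι) (a : ℕ) (x y : ι → MvPolynomial (Fin n) K)
    (h : ∀ i ∈ S, LowIs a (x i) (y i)) : LowIs a (∑ i ∈ S, x i) (∑ i ∈ S, y i) := by
  classical
  induction S using Finset.induction_on with
  | empty => exact ⟨fun k _ => by simp, by simp⟩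
  | insert i S hi ih =>
    rw [Finset.sum_insert hi, Finset.sum_insert hi]
    exact (h i (Finset.mem_insert_self _ _)).add (ih fun j hj => h j (Finset.mem_insert_of_mem hj))

private theorem low_monomial (ψ : Fin n → MvPolynomial (Fin n) K)
    (hψ : ∀ j, homogeneousComponent 0 (ψ j) = 0) (d : Fin n →₀ ℕ) (r : K) :
    LowIs d.degree (aeval ψ (monomial d r)) (aeval (fun j => homogeneousComponent 1 (ψ j)) (monomial d r)) := by
  have h1 : ∀ j ∈ (Finset.univ : Finset (Fin n)),
      LowIs (d j * 1) (ψ j ^ d j) (homogeneousComponent 1 (ψ j) ^ d j) := by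
    intro j _
    refine LowIs.pow ⟨fun k hk => ?_, rfl⟩ (d j)
    have : k = 0 := by omega
    rw [this]
    exact hψ j
  have h2 := (LowIs.C (n := n) r).mul (LowIs.prod Finset.univ _ _ _ h1)
  have h3 : (0 : ℕ) + ∑ j, d j * 1 = d.degree := by
    rw [zero_add, Finsupp.degree_eq_sum]
    exact Finset.sum_congr rfl fun j _ => mul_one _
  rw [h3] at h2
  have h4 : ∀ χ : Fin n → MvPolynomial (Fin n) K,
      aeval χ (monomial d r) = MvPolynomial.C r * ∏ j, χ j ^ d j := by
    intro χ
    rw [aeval_monomial, Finsupp.prod_fintype _ _ (fun j => pow_zero _)]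
    rfl
  rw [h4, h4]
  exact h2

/- PLAN. For a monomial `∏ j, ψ j ^ d j` by `hc_mul_lt`, `hc_mul_eq` (induction over the exponents and a
`Finset`), then sums (`g` homogeneous of degree `m`, `MvPolynomial.as_sum`; all monomials have degree
`m`). -/
theorem hc_aeval_homogeneous (ψ : Fin n → MvPolynomial (Fin n) K)
    (hψ : ∀ j, homogeneousComponent 0 (ψ j) = 0) {g : MvPolynomial (Fin n) K} {m : ℕ}
    (hg : g.IsHomogeneous m) :
    (∀ k < m, homogeneousComponent k (aeval ψ g) = 0) ∧
      homogeneousComponent m (aeval ψ g) = aeval (fun j => homogeneousComponent 1 (ψ j)) g := by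
  have h1 : ∀ d ∈ g.support, LowIs m (aeval ψ (monomial d (coeff d g)))
      (aeval (fun j => homogeneousComponent 1 (ψ j)) (monomial d (coeff d g))) := by
    intro d hd
    have h2 := low_monomial ψ hψ d (coeff d g)
    have h3 : d.degree = m := by
      have h4 := hg (mem_support_iff.1 hd)
      rw [Finsupp.degree_eq_weight_one]
      exact h4
    rw [h3] at h2
    exact h2
  have h5 := LowIs.sum g.support m _ _ h1
  rw [← map_sum, ← map_sum, support_sum_monomial_coeff] at h5
  exact h5

/- PLAN. `g = ∑ components` (`sum_homogeneousComponent`), the components below `m` vanish; the others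
by `hc_aeval_homogeneous`. -/
theorem hc_aeval_low (ψ : Fin n → MvPolynomial (Fin n) K)
    (hψ : ∀ j, homogeneousComponent 0 (ψ j) = 0) {g : MvPolynomial (Fin n) K} {m : ℕ}
    (hg : ∀ k < m, homogeneousComponent k g = 0) :
    homogeneousComponent m (aeval ψ g) =
      aeval (fun j => homogeneousComponent 1 (ψ j)) (homogeneousComponent m g) := by
  conv_lhs => rw [← sum_homogeneousComponent g]
  rw [map_sum, map_sum]
  by_cases hm : m ∈ Finset.range (g.totalDegree + 1)
  · rw [Finset.sum_eq_single_of_mem m hm]
    · exact (hc_aeval_homogeneous ψ hψ (homogeneousComponent_isHomogeneous m g)).2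
    · intro k _ hk
      rcases lt_or_gt_of_ne hk with h | h
      · rw [hg k h, map_zero, map_zero]
      · exact (hc_aeval_homogeneous ψ hψ (homogeneousComponent_isHomogeneous k g)).1 m h
  · have h1 : homogeneousComponent m g = 0 := by
      refine homogeneousComponent_eq_zero _ _ ?_
      rw [Finset.mem_range] at hm
      omega
    rw [h1, map_zero]
    refine Finset.sum_eq_zero fun k hk => ?_
    rw [Finset.mem_range] at hk hm
    rw [hg k (by omega), map_zero, map_zero]

end Pool.Agent.ORA
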