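import Pool.Agent.ORA.Base
import Pool.Agent.ORA.Gates
import Pool.Agent.ORA.GridA
import Pool.Agent.ORA.GridB

/-!
# ORA: main theorem
-/

set_option autoImplicit false

namespace Pool.Agent.ORA

open MvPolynomial Pool.Agent.ORB Pool.Agent.ORG

variable {K : Type*} [Field K] [CharZero K] {n : ℕ}

theorem ordF_ge (n κ k s Δ : ℕ) :
    n * ((mSeq κ k Δ).factorial * (n ^ (Δ + 1) * s) ^ mSeq κ k Δ) ^ 2 ≤ ordF n κ k s Δ ∧
      n * s ^ 2 ≤ ordF n κ k s Δ ∧ n * 2 ^ 2 ≤ ordF n κ k s Δ := by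
  unfold ordF dimF
  refine ⟨Nat.mul_le_mul_left _ (Nat.pow_le_pow_left (by omega) _),
    Nat.mul_le_mul_left _ (Nat.pow_le_pow_left (by omega) _),
    Nat.mul_le_mul_left _ (Nat.pow_le_pow_left (by omega) _)⟩

/-- the generator hits the class -/
theorem class_hit (κ k s Δ : ℕ) (g : MvPolynomial (Fin n) K) (hg : AutOrbit κ k s Δ g)
    (hg0 : g ≠ 0) : PhiP (cvx K n (ordF n κ k s Δ)) (fun _ => (0 : MvPolynomial (Fin 0) K))
      (2 + seeds κ k Δ) g ≠ 0 := by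
  obtain ⟨φ, c, a, N, T, h, hc, hφ, ha, hT, htr, halg, rfl⟩ := hg
  obtain ⟨h1, h2, h3⟩ := ordF_ge n κ k s Δ
  have hh0 : h ≠ 0 := by
    rintro rfl
    exact hg0 (map_zero _)
  exact occ_hitP φ c hc hφ _ (linearIndependent_cvx _ h3) (𝓛 := {g | FrameLeaf a s g})
    (leaf_H1P φ c hc hφ s _ _ Δ h1 h2 ha) T hT htr h halg hh0

theorem main_hit (κ k s Δ D m : ℕ) (g : Fin m → MvPolynomial (Fin n) K)
    (hg : ∀ j, AutOrbit κ k s Δ (g j)) (hg0 : ∀ j, g j ≠ 0) (f : MvPolynomial (Fin n) K)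
    (hf : f ∣ ∏ j, g j) (hD : f.totalDegree ≤ D) :
    ∃ x ∈ hitSet n (ordF n κ k s Δ) (2 + seeds κ k Δ) (D * (ordF n κ k s Δ + 1)),
      eval (fun i => (x i : K)) f ≠ 0 := by
  refine exists_mem_hitSet _ _ D f hD ?_
  intro h0
  obtain ⟨q, hq⟩ := hf
  have h1 := congrArg (PhiP (cvx K n (ordF n κ k s Δ)) (fun _ => (0 : MvPolynomial (Fin 0) K))
    (2 + seeds κ k Δ)) hq
  rw [map_mul, h0, zero_mul, map_prod, Finset.prod_eq_zero_iff] at h1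
  obtain ⟨j, -, hj⟩ := h1
  exact class_hit κ k s Δ (g j) (hg j) (hg0 j) hj

end Pool.Agent.ORA
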