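import Pool.Agent.ORA.Tay
import Pool.Agent.ORA.Low

/-!
# ORA: the initial form of `G(φ(x))`
-/

set_option autoImplicit false

namespace Pool.Agent.ORA

open MvPolynomial Pool.Agent.ORB

variable {K : Type*} [Field K] {n : ℕ}

/-- The translate of `G(φ(x))` is the composition of the translate of `G` with the translates of
the `φ j` without their constant terms; the lowest component of a composition. -/
theorem pull (φ : Fin n → MvPolynomial (Fin n) K) (α : Fin n → K) (G : MvPolynomial (Fin n) K) {m : ℕ}
    (hG : ∀ k < m, homogeneousComponent k (tr (fun j => eval α (φ j)) G) = 0) :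
    homogeneousComponent m (tr α (aeval φ G)) =
      aff (Matrix.of fun j i => eval α (pderiv i (φ j))) 0
        (homogeneousComponent m (tr (fun j => eval α (φ j)) G)) := by
  have hcomp : tr α (aeval φ G) = aeval (fun j => tr α (φ j) - C (eval α (φ j)))
      (tr (fun j => eval α (φ j)) G) := by
    have h : (tr α).comp (aeval φ) = (aeval (fun j => tr α (φ j) - C (eval α (φ j)))).comp
        (tr (fun j => eval α (φ j))) := by
      apply MvPolynomial.algHom_ext
      intro j
      have h1 : tr (fun j => eval α (φ j)) (X j) = C (eval α (φ j)) + X j := by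
        simp [tr]
      simp only [AlgHom.comp_apply, aeval_X, h1, map_add, algHom_C, algebraMap_eq]
      ring
    exact DFunLike.congr_fun h G
  have h0 : ∀ j, homogeneousComponent 0 (tr α (φ j) - C (eval α (φ j))) = 0 := by
    intro j
    rw [map_sub, hc_zero_tr, homogeneousComponent_zero, coeff_C, if_pos rfl, sub_self]
  have h1 : ∀ j, homogeneousComponent 1 (tr α (φ j) - C (eval α (φ j))) =
      ∑ i, C (eval α (pderiv i (φ j))) * X i := by
    intro j
    rw [map_sub, hc_one_tr]
    have : homogeneousComponent 1 (C (eval α (φ j)) : MvPolynomial (Fin n) K) = 0 := by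
      rw [homogeneousComponent_of_mem ((mem_homogeneousSubmodule 0 _).2 (isHomogeneous_C _ _)),
        if_neg (by norm_num)]
    rw [this, sub_zero]
  rw [hcomp, hc_aeval_low _ h0 hG]
  simp only [h1, aff, Matrix.of_apply, Pi.zero_apply, map_zero, zero_add]

end Pool.Agent.ORA
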