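import Pool.Agent.ORB.InitDef

/-!
# ORA: the first two components of a translate
-/

set_option autoImplicit false

namespace Pool.Agent.ORA

open MvPolynomial Pool.Agent.ORB

variable {K : Type*} [Field K] {n : ℕ}

private theorem oty_C (α : Fin n → K) (a : K) : tr α (C a) = C a := by
  unfold tr
  rw [aeval_C]
  rfl

private theorem oty_X (α : Fin n → K) (i : Fin n) : tr α (X i) = C (α i) + X i := by
  unfold tr
  rw [aeval_X]

private theorem oty_coeff (α : Fin n → K) (g : MvPolynomial (Fin n) K) :
    coeff 0 (tr α g) = eval α g := by
  have h0 : ∀ p : MvPolynomial (Fin n) K, coeff 0 p = constantCoeff p := fun p => rfl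
  rw [h0]
  induction g using MvPolynomial.induction_on with
  | C a => rw [oty_C, constantCoeff_C, eval_C]
  | add p q hp hq => rw [map_add, map_add, map_add, hp, hq]
  | mul_X p i hp =>
    rw [map_mul, map_mul, map_mul, hp, oty_X, map_add, constantCoeff_C, constantCoeff_X, add_zero,
      eval_X]

theorem hc_zero_tr (α : Fin n → K) (g : MvPolynomial (Fin n) K) :
    homogeneousComponent 0 (tr α g) = C (eval α g) := by
  rw [homogeneousComponent_zero, oty_coeff]

private theorem oty_mulX (q : MvPolynomial (Fin n) K) (k : Fin n) :
    homogeneousComponent 1 (q * X k) = C (coeff 0 q) * X k := by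
  classical
  ext d
  rw [coeff_homogeneousComponent, coeff_C_mul, coeff_mul_X', coeff_X]
  by_cases hd : Finsupp.single k 1 = d
  · subst hd
    rw [if_pos (by rw [Finsupp.degree_single]), if_pos (by simp), if_pos rfl, tsub_self, mul_one]
  · rw [if_neg hd, mul_zero]
    split_ifs with h1 h2
    · exfalso
      apply hd
      have h3 : Finsupp.single k 1 ≤ d := by
        rw [Finsupp.single_le_iff]
        exact Nat.one_le_iff_ne_zero.mpr (Finsupp.mem_support_iff.mp h2)
      obtain ⟨e, he⟩ := exists_add_of_le h3
      rw [he, map_add, Finsupp.degree_single] at h1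
      have h4 : Finsupp.degree e = 0 := by omega
      rw [Finsupp.degree_eq_zero_iff] at h4
      rw [he, h4, add_zero]
    · rfl
    · rfl

theorem hc_one_tr (α : Fin n → K) (g : MvPolynomial (Fin n) K) :
    homogeneousComponent 1 (tr α g) = ∑ i, C (eval α (pderiv i g)) * X i := by
  classical
  induction g using MvPolynomial.induction_on with
  | C a =>
    rw [oty_C, ← mul_one (C a), homogeneousComponent_C_mul]
    have h1 : homogeneousComponent 1 (1 : MvPolynomial (Fin n) K) = 0 := by
      ext d
      rw [coeff_homogeneousComponent, coeff_one, coeff_zero]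
      split_ifs with h1 h2
      · rw [← h2, map_zero] at h1
        exact absurd h1 (by norm_num)
      · rfl
      · rfl
    rw [h1, mul_zero, mul_one]
    symm
    refine Finset.sum_eq_zero fun i _ => ?_
    rw [pderiv_C, map_zero, map_zero, zero_mul]
  | add p q hp hq =>
    rw [map_add, map_add, hp, hq, ← Finset.sum_add_distrib]
    refine Finset.sum_congr rfl fun i _ => ?_
    rw [map_add, map_add, map_add, add_mul]
  | mul_X p k hp =>
    rw [map_mul, oty_X, mul_add, map_add, oty_mulX, oty_coeff, mul_comm (tr α p) (C (α k)),
      homogeneousComponent_C_mul, hp]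
    have h1 : ∀ i : Fin n, C (eval α (pderiv i (p * X k))) * X i =
        C (α k) * (C (eval α (pderiv i p)) * X i) + (if i = k then C (eval α p) * X k else 0) := by
      intro i
      rw [pderiv_mul, map_add, map_mul, map_mul, eval_X, map_add, map_mul, map_mul]
      by_cases hik : i = k
      · rw [if_pos hik, hik, pderiv_X_self, map_one, map_one]
        ring
      · rw [if_neg hik, pderiv_X_of_ne (Ne.symm hik), map_zero, map_zero]
        ring
    rw [Finset.sum_congr rfl fun i _ => h1 i, Finset.sum_add_distrib, ← Finset.mul_sum,
      Finset.sum_ite_eq', if_pos (Finset.mem_univ k)]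

end Pool.Agent.ORA
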